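import Pool.Agent.Q155.GN.Stm

/-!
Project GN (owner helper155), part HAL: mean value of the function that is `1/2` at the primes with
symbol `-1` and `1` at the others.
-/

set_option autoImplicit false

open scoped Classical

namespace Q146.GN

open Finset
open H385 (ZI nrm)
open Pool.Agent.H304R2.EC.A1 (prim prim_cancel prim_ne_zero)
open Pool.Agent.Y699
open Q155.GN (S_HAL)

/-- a product of primary primes dividing `n` divides `n` -/
theorem dvd_of_PD {n : ZI} {S : Finset ZI} (h : ∀ π ∈ S, PP π ∧ π ∣ n) : (∏ π ∈ S, π) ∣ n := by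
  refine prod_dvd_of_coprime ?_ ?_
  · intro π hπ ρ hρ hne
    exact (h π hπ).1.cop (h ρ hρ).1 hne
  · intro π hπ
    exact (h π hπ).2

/-- the values of the function -/
theorem chi_cases (G π : ZI) :
    (jac G π : ℝ) = 0 ∨ (jac G π : ℝ) = 1 ∨ (jac G π : ℝ) = -1 := by
  rcases jac_cases G π with h | h | h <;> rw [h] <;> simp

/-- the logarithmic mean of `(1 + χ) / 2` -/
theorem log_mean {G : ZI} (hG : PS G) (h1 : G ≠ 1) (Y : ℕ) :
    ∑ n ∈ SB Y, mf (fun π => (1 + (jac G π : ℝ)) / 2) n / nrm n ≤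
      80 * Real.sqrt (lg (nrm G) * lg Y) := by
  have hχ := chi_cases G
  have hl := one_le_lg (nrm G)
  have hA : ∑ n ∈ PB (Y ^ 2), mf (fun π => 2 * ((1 + (jac G π : ℝ)) / 2)) n / nrm n ≤
      6400 * (lg (nrm G) * lg Y) := by
    have e1 : (fun π : ZI => 2 * ((1 + (jac G π : ℝ)) / 2)) = fun π => 1 + (jac G π : ℝ) := by
      funext π; ring
    rw [e1]
    have e2 : ∑ n ∈ PB (Y ^ 2), mf (fun π => 1 + (jac G π : ℝ)) n / nrm n ≤
        ∑ n ∈ PB (Y ^ 2), (∑ d ∈ DP n, (jac G d : ℝ)) / nrm n := by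
      refine sum_le_sum fun n hn => ?_
      exact div_le_div_of_nonneg_right (conv_le hG.ne n (mem_PB.1 hn).2) (Nat.cast_nonneg _)
    rw [conv_sum] at e2
    refine e2.trans ?_
    have e3 : ∀ k ∈ PB (Y ^ 2),
        (1 / (nrm k : ℝ)) * ∑ d ∈ PB (Y ^ 2 / nrm k), (jac G d : ℝ) / nrm d ≤
        (171 * lg (nrm G)) * (1 / nrm k) := by
      intro k _
      rw [mul_comm]
      exact mul_le_mul_of_nonneg_right ((le_abs_self _).trans (chs_log hG h1 _)) (by positivity)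
    refine (sum_le_sum e3).trans ?_
    rw [← mul_sum]
    have e4 := hsum (Y ^ 2)
    have e5 := lg_sq Y
    have e6 := lg_pos Y
    have e7 : (171 * lg (nrm G)) * ∑ k ∈ PB (Y ^ 2), (1 : ℝ) / nrm k ≤
        (171 * lg (nrm G)) * (36 * lg Y) := by
      apply mul_le_mul_of_nonneg_left _ (by linarith)
      linarith
    refine e7.trans ?_
    have : 0 ≤ lg (nrm G) * lg Y := by positivity
    nlinarith
  have h2 := hall2 (g := fun π => (1 + (jac G π : ℝ)) / 2)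
    (fun π => by rcases hχ π with h | h | h <;> simp only [h] <;> norm_num)
    (fun π => by rcases hχ π with h | h | h <;> simp only [h] <;> norm_num) Y
  have h3 := Real.le_sqrt_of_sq_le (h2.trans hA)
  refine h3.trans (le_of_eq ?_)
  rw [Real.sqrt_mul (by norm_num)]
  congr 1
  rw [show (6400 : ℝ) = 80 ^ 2 by norm_num]
  exact Real.sqrt_sq (by norm_num)

/-- expanding `1 + h` -/
theorem conv1 (h : ZI → ℝ) (h0 : ∀ π, 0 ≤ h π) (Y : ℕ) :
    ∑ n ∈ PB Y, mf (fun π => 1 + h π) n / nrm n ≤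
      (∑ d ∈ SB Y, mf h d / nrm d) * ∑ m ∈ PB Y, (1 : ℝ) / nrm m := by
  have e1 : ∑ n ∈ PB Y, mf (fun π => 1 + h π) n / nrm n =
      ∑ x ∈ (PB Y).sigma (fun n => (PD n).powerset), (∏ π ∈ x.2, h π) / (nrm x.1 : ℝ) := by
    rw [sum_sigma]
    refine sum_congr rfl fun n _ => ?_
    show _ = ∑ s ∈ (PD n).powerset, (∏ π ∈ s, h π) / (nrm n : ℝ)
    rw [← sum_div]
    congr 1
    unfold mf
    rw [prod_one_add]
  rw [e1, sum_mul_sum, ← sum_product']
  have key : ∀ (n : ZI) (S : Finset ZI), n ∈ PB Y → S ⊆ PD n →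
      n ≠ 0 ∧ (∀ π ∈ S, PP π) ∧ PS (∏ π ∈ S, π) ∧ PD (∏ π ∈ S, π) = S ∧
        (∏ π ∈ S, π) * (n / ∏ π ∈ S, π) = n := by
    intro n S hn hS
    have hn0 := prim_ne_zero (mem_PB.1 hn).2
    have h1 : ∀ π ∈ S, PP π ∧ π ∣ n := fun π hπ => (mem_PD hn0).1 (hS hπ)
    have h2 : ∀ π ∈ S, PP π := fun π hπ => (h1 π hπ).1
    exact ⟨hn0, h2, (PS_prod h2).1, (PS_prod h2).2,
      EuclideanDomain.mul_div_cancel' (PS_prod h2).1.ne (dvd_of_PD h1)⟩
  refine sum_le_inj (fun x => (∏ π ∈ x.2, π, x.1 / ∏ π ∈ x.2, π)) ?_ ?_ ?_ ?_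
  · rintro ⟨n, S⟩ hx
    rw [mem_sigma, mem_powerset] at hx
    simp only at hx
    obtain ⟨k0, k1, k2, k3, k4⟩ := key n S hx.1 hx.2
    have hn := mem_PB.1 hx.1
    have h5 : nrm (∏ π ∈ S, π) * nrm (n / ∏ π ∈ S, π) = nrm n := by rw [← nrm_mul, k4]
    have h6 := nrm_pos' k2.ne
    have h7 : 0 < nrm (n / ∏ π ∈ S, π) := by
      rcases Nat.eq_zero_or_pos (nrm (n / ∏ π ∈ S, π)) with h8 | h8
      · rw [h8, Nat.mul_zero] at h5
        exact absurd h5.symm (nrm_ne k0)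
      · exact h8
    rw [mem_product, mem_SB, mem_PB]
    refine ⟨⟨?_, k2⟩, ?_, ?_⟩
    · refine le_trans ?_ hn.1
      rw [← h5]
      exact Nat.le_mul_of_pos_right _ h7
    · refine le_trans ?_ hn.1
      rw [← h5]
      exact Nat.le_mul_of_pos_left _ h6
    · refine prim_cancel k2.prm ?_
      show prim ((∏ π ∈ S, π) * (n / ∏ π ∈ S, π))
      rw [k4]
      exact hn.2
  · rintro ⟨n, S⟩ hx ⟨n', S'⟩ hy hxy
    rw [mem_sigma, mem_powerset] at hx hy
    simp only [Prod.mk.injEq] at hx hy hxy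
    obtain ⟨h2, h3⟩ := hxy
    obtain ⟨-, -, -, k3, k4⟩ := key n S hx.1 hx.2
    obtain ⟨-, -, -, l3, l4⟩ := key n' S' hy.1 hy.2
    have e2 : S = S' := by rw [← k3, ← l3, h2]
    have e3 : n = n' := by rw [← k4, ← l4, h3, h2]
    subst e2
    subst e3
    rfl
  · rintro ⟨n, S⟩ hx
    rw [mem_sigma, mem_powerset] at hx
    simp only at hx
    obtain ⟨k0, k1, k2, k3, k4⟩ := key n S hx.1 hx.2
    have h5 : nrm n = nrm (∏ π ∈ S, π) * nrm (n / ∏ π ∈ S, π) := by rw [← nrm_mul, k4]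
    show (∏ π ∈ S, h π) / (nrm n : ℝ) ≤
      mf h (∏ π ∈ S, π) / nrm (∏ π ∈ S, π) * (1 / (nrm (n / ∏ π ∈ S, π) : ℝ))
    unfold mf
    rw [k3, h5, Nat.cast_mul, div_mul_div_comm, mul_one]
  · intro x _
    exact mul_nonneg (div_nonneg (mf_nonneg h0 _) (Nat.cast_nonneg _)) (by positivity)

/-- removing the primes dividing `G` -/
theorem conv2 {G : ZI} (hG : G ≠ 0) (h k : ZI → ℝ) (h0 : ∀ π, 0 ≤ h π) (h1 : ∀ π, h π ≤ 1)
    (k0 : ∀ π, 0 ≤ k π) (he : ∀ π, PP π → ¬ π ∣ G → h π = k π) (Y : ℕ) :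
    ∑ d ∈ SB Y, mf h d / nrm d ≤
      (∑ d ∈ SB (nrm G), (1 : ℝ) / nrm d) * ∑ d ∈ SB Y, mf k d / nrm d := by
  rw [sum_mul_sum, ← sum_product']
  have key : ∀ d : ZI, d ∈ SB Y →
      (∀ π ∈ (PD d).filter (fun π => π ∣ G), PP π ∧ π ∣ G) ∧
      (∀ π ∈ (PD d).filter (fun π => ¬ π ∣ G), PP π ∧ ¬ π ∣ G) ∧
      (∏ π ∈ (PD d).filter (fun π => π ∣ G), π) * (∏ π ∈ (PD d).filter (fun π => ¬ π ∣ G), π) =
        d := by
    intro d hd
    have hd2 := (mem_SB.1 hd).2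
    refine ⟨fun π hπ => ?_, fun π hπ => ?_, ?_⟩
    · rw [mem_filter, mem_PD hd2.ne] at hπ
      exact ⟨hπ.1.1, hπ.2⟩
    · rw [mem_filter, mem_PD hd2.ne] at hπ
      exact ⟨hπ.1.1, hπ.2⟩
    · rw [prod_filter_mul_prod_filter_not]
      exact hd2.prod
  refine sum_le_inj (fun d => (∏ π ∈ (PD d).filter (fun π => π ∣ G), π,
    ∏ π ∈ (PD d).filter (fun π => ¬ π ∣ G), π)) ?_ ?_ ?_ ?_
  · intro d hd
    obtain ⟨a1, a2, a3⟩ := key d hd
    have b1 := PS_prod fun π hπ => (a1 π hπ).1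
    have b2 := PS_prod fun π hπ => (a2 π hπ).1
    rw [mem_product, mem_SB, mem_SB]
    refine ⟨⟨norm_le_of_dvd hG (dvd_of_PD a1), b1.1⟩, ?_, b2.1⟩
    refine le_trans ?_ (mem_SB.1 hd).1
    refine norm_le_of_dvd (mem_SB.1 hd).2.ne ?_
    exact Dvd.intro_left _ a3
  · intro d hd e he hde
    obtain ⟨-, -, a3⟩ := key d hd
    obtain ⟨-, -, b3⟩ := key e he
    simp only [Prod.mk.injEq] at hde
    rw [← a3, ← b3, hde.1, hde.2]
  · intro d hd
    obtain ⟨a1, a2, a3⟩ := key d hd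
    have b1 := PS_prod fun π hπ => (a1 π hπ).1
    have b2 := PS_prod fun π hπ => (a2 π hπ).1
    show mf h d / (nrm d : ℝ) ≤ 1 / (nrm (∏ π ∈ (PD d).filter (fun π => π ∣ G), π) : ℝ) *
      (mf k (∏ π ∈ (PD d).filter (fun π => ¬ π ∣ G), π) /
        nrm (∏ π ∈ (PD d).filter (fun π => ¬ π ∣ G), π))
    have h5 : (nrm d : ℝ) = nrm (∏ π ∈ (PD d).filter (fun π => π ∣ G), π) *
        nrm (∏ π ∈ (PD d).filter (fun π => ¬ π ∣ G), π) := by
      rw [← Nat.cast_mul, ← nrm_mul, a3]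
    rw [h5, div_mul_div_comm, one_mul]
    refine div_le_div_of_nonneg_right ?_ (by positivity)
    unfold mf
    rw [b2.2, ← prod_filter_mul_prod_filter_not (PD d) (fun π => π ∣ G)]
    have h6 : ∏ π ∈ (PD d).filter (fun π => ¬ π ∣ G), h π =
        ∏ π ∈ (PD d).filter (fun π => ¬ π ∣ G), k π :=
      prod_congr rfl fun π hπ => he π (a2 π hπ).1 (a2 π hπ).2
    rw [h6]
    exact mul_le_of_le_one_left (prod_nonneg fun _ _ => k0 _)
      (prod_le_one (fun _ _ => h0 _) (fun _ _ => h1 _))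
  · intro x _
    exact mul_nonneg (by positivity) (div_nonneg (mf_nonneg k0 _) (Nat.cast_nonneg _))

/-- for a primary prime not dividing `G` the symbol is `1` or `-1` -/
theorem chi_ne {G π : ZI} (hG : PS G) (hπ : PP π) (h : ¬ π ∣ G) : jac G π = 1 ∨ jac G π = -1 := by
  have hc : IsCoprime G π := by
    rw [isCoprime_comm]
    exact (hπ.pr.irreducible.coprime_iff_not_dvd).2 h
  have h1 := jac_ne_zero hG hc
  rcases jac_cases G π with h2 | h2 | h2
  · exact absurd h2 h1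
  · exact Or.inl h2
  · exact Or.inr h2

theorem sqrt_sqrt_rpow {x : ℝ} (hx : 0 < x) :
    Real.sqrt (Real.sqrt x) / Real.sqrt x = x ^ (-(1 / 4) : ℝ) := by
  rw [Real.sqrt_eq_rpow, Real.sqrt_eq_rpow, ← Real.rpow_mul hx.le, ← Real.rpow_sub hx]
  norm_num

/-- GN-HAL -/
theorem hal : S_HAL := by
  refine ⟨21 * Real.sqrt 100000, ?_, ?_⟩
  · have : (1 : ℝ) ≤ Real.sqrt 100000 := Real.one_le_sqrt.2 (by norm_num)
    linarith
  intro G T hG hG1 hT
  set g : ZI → ℝ := fun π => if jac G π = -1 then (1 / 2 : ℝ) else 1 with hg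
  set h : ZI → ℝ := fun π => if jac G π = -1 then (0 : ℝ) else 1 with hh
  have hχ := chi_cases G
  have l1 := one_le_lg (nrm G)
  have l2 := one_le_lg T
  have l3 := one_le_lg (T ^ 2)
  have l4 := lg_sq T
  have g0 : ∀ π, 0 ≤ g π := fun π => by rw [hg]; dsimp only; split_ifs <;> norm_num
  have g1 : ∀ π, g π ≤ 1 := fun π => by rw [hg]; dsimp only; split_ifs <;> norm_num
  have h0 : ∀ π, 0 ≤ h π := fun π => by rw [hh]; dsimp only; split_ifs <;> norm_num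
  have h1 : ∀ π, h π ≤ 1 := fun π => by rw [hh]; dsimp only; split_ifs <;> norm_num
  have e1 : (fun π => 2 * g π) = fun π => 1 + h π := by
    funext π
    rw [hg, hh]
    dsimp only
    split_ifs <;> norm_num
  have k0 : ∀ π, 0 ≤ (1 + (jac G π : ℝ)) / 2 := fun π => by
    rcases hχ π with h | h | h <;> rw [h] <;> norm_num
  have he : ∀ π, PP π → ¬ π ∣ G → h π = (1 + (jac G π : ℝ)) / 2 := by
    intro π hπ hd
    rw [hh]
    dsimp only
    rcases chi_ne hG hπ hd with h2 | h2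
    · rw [h2, if_neg (by norm_num)]
      norm_num
    · rw [h2, if_pos rfl]
      norm_num
  have hb : ∑ n ∈ PB (T ^ 2), mf (fun π => 2 * g π) n / nrm n ≤
      (100000 * lg (nrm G) ^ 2 * Real.sqrt (lg T)) * lg T := by
    rw [e1]
    refine (conv1 h h0 (T ^ 2)).trans ?_
    have c1 := conv2 hG.ne h (fun π => (1 + (jac G π : ℝ)) / 2) h0 h1 k0 he (T ^ 2)
    have c2 := hsum_SB (nrm G)
    have c3 := log_mean hG hG1 (T ^ 2)
    have c4 := hsum (T ^ 2)
    have s0 : 0 ≤ ∑ d ∈ SB (T ^ 2), mf h d / (nrm d : ℝ) :=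
      sum_nonneg fun n _ => div_nonneg (mf_nonneg h0 n) (Nat.cast_nonneg _)
    have s1 : 0 ≤ ∑ d ∈ SB (T ^ 2), mf (fun π => (1 + (jac G π : ℝ)) / 2) d / (nrm d : ℝ) :=
      sum_nonneg fun n _ => div_nonneg (mf_nonneg k0 n) (Nat.cast_nonneg _)
    have d1 : Real.sqrt (lg (nrm G) * lg (T ^ 2)) ≤
        lg (nrm G) * (3 / 2 * Real.sqrt (lg T)) := by
      rw [Real.sqrt_le_left (by positivity)]
      have : (lg (nrm G) * (3 / 2 * Real.sqrt (lg T))) ^ 2 =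
          lg (nrm G) ^ 2 * (9 / 4 * (Real.sqrt (lg T)) ^ 2) := by ring
      rw [this, Real.sq_sqrt (by linarith), sq (lg (nrm G)), mul_assoc]
      apply mul_le_mul_of_nonneg_left _ (by linarith)
      nlinarith
    have d2 : ∑ d ∈ SB (T ^ 2), mf h d / (nrm d : ℝ) ≤
        (18 * lg (nrm G)) * (80 * (lg (nrm G) * (3 / 2 * Real.sqrt (lg T)))) := by
      refine c1.trans ?_
      refine mul_le_mul c2 (c3.trans ?_) s1 (by linarith)
      linarith
    have d3 : ∑ m ∈ PB (T ^ 2), (1 : ℝ) / nrm m ≤ 36 * lg T := by linarith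
    refine (mul_le_mul d2 d3 (sum_nonneg fun _ _ => by positivity) (by positivity)).trans ?_
    have e2 : (18 * lg (nrm G)) * (80 * (lg (nrm G) * (3 / 2 * Real.sqrt (lg T)))) * (36 * lg T) =
        77760 * (lg (nrm G) ^ 2 * Real.sqrt (lg T) * lg T) := by ring
    have e3 : (100000 * lg (nrm G) ^ 2 * Real.sqrt (lg T)) * lg T =
        100000 * (lg (nrm G) ^ 2 * Real.sqrt (lg T) * lg T) := by ring
    rw [e2, e3]
    have : 0 ≤ lg (nrm G) ^ 2 * Real.sqrt (lg T) * lg T := by positivity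
    linarith
  have s2 : 1 ≤ Real.sqrt (lg T) := Real.one_le_sqrt.2 l2
  have hA1 : 1 ≤ 100000 * lg (nrm G) ^ 2 * Real.sqrt (lg T) := by
    have : 1 ≤ lg (nrm G) ^ 2 := one_le_pow₀ l1
    nlinarith
  have hfin := hall_aux g0 g1 hT hA1 hb
  refine hfin.trans (le_of_eq ?_)
  have e4 : Real.sqrt (100000 * lg (nrm G) ^ 2 * Real.sqrt (lg T)) =
      Real.sqrt 100000 * lg (nrm G) * Real.sqrt (Real.sqrt (lg T)) := by
    rw [Real.sqrt_mul (by positivity), Real.sqrt_mul (by norm_num), Real.sqrt_sq (by linarith)]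
  rw [e4, ← sqrt_sqrt_rpow (lg_pos T)]
  ring

end Q146.GN
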